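import Pool.Agent.K6.H10.AB.Two
import Pool.Agent.K6.H10.AB.Cons

/-!
A threefold with birational Albanese map, `q = 4` and `p_g > χ(K) + q - 1`.

Let `E` be the elliptic curve `y² = x³ + 1` and `X₀` the closure in `E⁴` of the threefold
`x₀ x₁ = (x₂ x₃)²`; let `X → X₀` be a resolution of the singularities. The theorem below is about the
function field `K = ℂ(x₀, ..., x₃, y₀, ..., y₃)` of `X`. The birational invariants of `X` in the
question are computed from `K`: for a smooth projective `X` of dimension `n` the holomorphic
`i`-forms are the rational `i`-forms which are regular along all prime divisors of all models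
(`holForms K n i`), the irregularity is `h^{1,0}`, the geometric genus is `h^{n,0}`, and
`h^i(X, K_X) = h^{n-i}(X, 𝒪) = h^{n-i,0}` by the dualities of Serre and Hodge.

The last condition on the generators of `K` says that the map `X → E⁴` is birational onto its image
(the threefold `X₀`); it factors through the Albanese map of `X`, hence the Albanese map is birational
onto its image, of dimension `3`, too.
-/

set_option autoImplicit false

open Pool.Agent.K6.H10.AB

/-- There is a smooth projective threefold `X`, with function field `K`, with four maps to the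
elliptic curve `y² = x³ + 1` which are given by the rational functions `x i`, `y i` and embed `X`
birationally (these functions generate the field `K`), such that `q(X) = 4` and
`p_g(X) - (χ(K_X) + q(X) - 1) > 0`. -/
theorem Pool.Agent.Results.MP_d80bfc_ag.BirationalAlbanese.result :
    ∃ (K : Type) (_ : Field K) (_ : Algebra ℂ K) (x y : Fin 4 → K),
      Algebra.EssFiniteType ℂ K ∧ Algebra.trdeg ℂ K = (3 : ℕ) ∧
      (∀ i, Transcendental ℂ (x i) ∧ y i ^ 2 = x i ^ 3 + 1) ∧
      IntermediateField.adjoin ℂ (Set.range x ∪ Set.range y) = ⊤ ∧
      FiniteForms K 3 ∧ irregularity K 3 = 4 ∧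
      (0 : ℤ) < (geometricGenus K 3 : ℤ) - (chiCanonical K 3 + (irregularity K 3 : ℤ) - 1) := by
  obtain ⟨K, i1, i2, x, y, h⟩ := exists_dat
  exact ⟨K, i1, i2, x, y, h.ess, h.deg, fun i => ⟨h.tr i, h.eq i⟩, h.top,
    finite_all h, (irr_eq h).2, ineq h⟩
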